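import Mathlib
import Pool.Agent.H34.TensorB

namespace Pool.Agent.Results.MP_a9d09b_co.NoTensor
open Pool.Agent.H34.TensorDefs

/-- Tensorization fails for the partition rank over every field and for the analytic rank over
every `𝔽_p`, already for `d = 4`. -/
theorem result :
    (∀ (F : Type) [Field F], ∃ (n : ℕ) (A : (Fin 4 → Fin n) → F), 1 ≤ n ∧
      prank A < prank (idT F 4 (Fin n)) ∧ ∀ c : ℝ, c < 1 → ∃ m : ℕ, 1 ≤ m ∧
        c ^ m * prank (tpow (idT F 4 (Fin n)) m) ≤ prank (tpow A m)) ∧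
    (∀ (p : ℕ) [Fact p.Prime], ∃ (n : ℕ) (A : (Fin 4 → Fin n) → ZMod p), 1 ≤ n ∧
      arank A < arank (idT (ZMod p) 4 (Fin n)) ∧ ∀ c : ℝ, c < 1 → ∃ m : ℕ, 1 ≤ m ∧
        c ^ m * arank (tpow (idT (ZMod p) 4 (Fin n)) m) ≤ arank (tpow A m)) :=
  ⟨Pool.Agent.H34.TensorB.main_p, Pool.Agent.H34.TensorB.main_a⟩

end Pool.Agent.Results.MP_a9d09b_co.NoTensor
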